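import Pool.Agent.Helper85.FL.Flips
import Pool.Agent.Helper2.AR.Tree

/-!
# Suslin trees with isomorphic incomparable cones above every node have flips
-/

open Set Cardinal Helper2.AR

namespace Helper85.FL

variable {T : Type} [PartialOrder T]

theorem isLvl_len (D : Lev K1 T) : IsLvl D.len := by
  refine ⟨?_, fun u β hβ => ⟨D.res u β, D.res_le hβ, D.len_res hβ⟩, ?_⟩
  · intro x y hxy
    rcases lt_or_eq_of_le (D.len_mono hxy.le) with h | h
    · exact h
    · exfalso
      have h1 := D.res_of_le hxy.le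
      have h2 := D.res_of_le (le_refl y)
      rw [h] at h1
      exact hxy.ne (h1.symm.trans h2)
  · have key : ∀ u x y : T, x ≤ u → y ≤ u → D.len x ≤ D.len y → x ≤ y := by
      intro u x y hx hy hxy
      have h1 := D.res_of_le hx
      have h2 : D.res y (D.len x) ≤ u := (D.res_le hxy).trans hy
      have h3 := D.res_of_le h2
      rw [D.len_res hxy, h1] at h3
      rw [h3]
      exact D.res_le hxy
    intro u x y hx hy
    rcases le_total (D.len x) (D.len y) with h | h
    · exact Or.inl (key u x y hx hy h)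
    · exact Or.inr (key u y x hy hx h)

theorem countable_low (hT : IsSuslinTree T) (D : Lev K1 T) (β : K1) :
    {t | D.len t ≤ β}.Countable := by
  have h1 : ∀ γ : K1, {t | D.len t = γ}.Countable := by
    intro γ
    apply hT.2.2.2.2
    intro s hs t ht hst hle
    rcases eq_or_lt_of_le hle with h | h
    · exact hst h
    · have h2 := (isLvl_len D).lt _ _ h
      have h3 : D.len s = γ := hs
      have h4 : D.len t = γ := ht
      rw [h3, h4] at h2
      exact lt_irrefl _ h2
  have h2 : {t | D.len t ≤ β} ⊆ ⋃ γ ∈ Iic β, {t | D.len t = γ} := by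
    intro t ht
    exact mem_biUnion (show D.len t ∈ Iic β from ht) rfl
  exact ((K1.iic β).biUnion fun γ _ => h1 γ).mono h2

theorem card_tree (hT : IsSuslinTree T) (D : Lev K1 T) : #T ≤ ℵ₁ := by
  classical
  have h1 : ∀ γ : K1, ∃ f : T → ℕ, Set.InjOn f {t | D.len t ≤ γ} := by
    intro γ
    exact Set.countable_iff_exists_injOn.1 (countable_low hT D γ)
  choose f hf using h1
  have h2 : Function.Injective fun t : T => ((D.len t, f (D.len t) t) : K1 × ℕ) := by
    intro s t hst
    simp only [Prod.mk.injEq] at hst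
    obtain ⟨h3, h4⟩ := hst
    have h5 := hf (D.len t)
    rw [h3] at h4
    exact h5 (show D.len s ≤ D.len t from h3.le) (show D.len t ≤ D.len t from le_rfl) h4
  refine (Cardinal.mk_le_of_injective h2).trans ?_
  rw [Cardinal.mk_prod, Cardinal.lift_id, Cardinal.lift_id, Cardinal.mk_ord_toType,
    Cardinal.mk_nat]
  exact (Cardinal.mul_le_max_of_aleph0_le_left (Cardinal.aleph0_le_aleph 1)).trans
    (max_le le_rfl (Cardinal.aleph0_le_aleph 1))

theorem exists_high (hT : IsSuslinTree T) (D : Lev K1 T) (hunc : ∀ s : T, ¬ (Ici s).Countable)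
    (s : T) (β : K1) : ∃ t, s ≤ t ∧ β ≤ D.len t := by
  by_contra hcon
  push Not at hcon
  exact hunc s ((countable_low hT D β).mono fun t ht => (hcon t ht).le)

/-- an isomorphism of cones preserves a level above every given one -/
theorem exists_fix (hT : IsSuslinTree T) (D : Lev K1 T) {u v : T} (e : Ici u ≃o Ici v) :
    ∃ δ, D.len u < δ ∧ D.len v < δ ∧ ∀ t : Ici u, D.len t = δ → D.len (e t) = δ := by
  classical
  have hl := isLvl_len D
  have h1 : ∀ γ : K1, ∃ b, (∀ s : Ici u, D.len s ≤ γ → D.len (e s) < b) ∧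
      ∀ r : Ici v, D.len r ≤ γ → D.len (e.symm r) < b := by
    intro γ
    have h2 : ((fun t : T => if h : u ≤ t then D.len (e ⟨t, h⟩) else γ) ''
        {t | D.len t ≤ γ}).Countable := (countable_low hT D γ).image _
    have h3 : ((fun t : T => if h : v ≤ t then D.len (e.symm ⟨t, h⟩) else γ) ''
        {t | D.len t ≤ γ}).Countable := (countable_low hT D γ).image _
    obtain ⟨b, hb⟩ := K1.bdd _ (h2.union h3)
    refine ⟨b, fun s hs => ?_, fun r hr => ?_⟩
    · refine hb _ (Or.inl ⟨s.1, hs, ?_⟩)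
      exact dif_pos s.2
    · refine hb _ (Or.inr ⟨r.1, hr, ?_⟩)
      exact dif_pos r.2
  choose H hH1 hH2 using h1
  have hclub := Helper2.HB.isClub_diag K1.cof.1 K1.cof.2 (fun γ => Ioi (H γ))
    (fun γ => Helper2.HB.isClub_Ioi _)
  obtain ⟨m, hm⟩ := exists_gt (max (D.len u) (D.len v))
  obtain ⟨δ, hδ, hmδ⟩ := hclub.isCofinal m
  have huδ : D.len u < δ := ((le_max_left _ _).trans_lt hm).trans_le hmδ
  have hvδ : D.len v < δ := ((le_max_right _ _).trans_lt hm).trans_le hmδ
  have hc1 : ∀ s : Ici u, D.len s < δ → D.len (e s) < δ := fun s hs =>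
    (hH1 _ s le_rfl).trans (hδ _ hs)
  have hc2 : ∀ r : Ici v, D.len r < δ → D.len (e.symm r) < δ := fun r hr =>
    (hH2 _ r le_rfl).trans (hδ _ hr)
  refine ⟨δ, huδ, hvδ, fun t ht => ?_⟩
  rcases lt_trichotomy (D.len (e t)) δ with h | h | h
  · have h2 := hc2 _ h
    rw [e.symm_apply_apply, ht] at h2
    exact absurd h2 (lt_irrefl _)
  · exact h
  · exfalso
    have h2 : D.res (e t) δ ≤ (e t : T) := D.res_le h.le
    have h3 : D.len (D.res (e t) δ) = δ := D.len_res h.le
    have h4 : v ≤ D.res (e t) δ := hl.le_of (e t).2 h2 (by rw [h3]; exact hvδ.le)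
    let r : Ici v := ⟨D.res (e t) δ, h4⟩
    have h5 : r < e t := by
      refine lt_of_le_of_ne (show r ≤ e t from h2) ?_
      intro h6
      have h7 : D.len (r : T) = D.len (e t : T) := by rw [h6]
      have h8 : D.len (r : T) = δ := h3
      rw [h8] at h7
      exact absurd h (by rw [← h7]; exact lt_irrefl _)
    have h6 : e.symm r < t := by
      rw [← e.symm_apply_apply t]
      exact e.symm.strictMono h5
    have h7 : D.len (e.symm r : T) < δ := by
      rw [← ht]
      exact hl.lt _ _ h6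
    have h8 := hc1 _ h7
    rw [e.apply_symm_apply] at h8
    have h9 : D.len (r : T) = δ := h3
    rw [h9] at h8
    exact lt_irrefl _ h8

/-- above a node whose level is preserved all levels are preserved -/
theorem fix_above (hT : IsSuslinTree T) (D : Lev K1 T) {u v : T} (e : Ici u ≃o Ici v)
    (x : Ici u) (hx : D.len (e x) = D.len x) :
    ∀ t : T, ∀ ht : (x : T) ≤ t, D.len (e ⟨t, (show u ≤ (x : T) from x.2).trans ht⟩ : T) =
      D.len t := by
  have hl := isLvl_len D
  have hwf : WellFoundedLT T := hT.2.1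
  intro t
  induction t using WellFoundedLT.induction with
  | ind t ih =>
    intro ht
    have hut : u ≤ t := (show u ≤ (x : T) from x.2).trans ht
    let t' : Ici u := ⟨t, hut⟩
    have hxt : x ≤ t' := ht
    have hext : e x ≤ e t' := e.monotone hxt
    change D.len (e t' : T) = D.len t
    rcases lt_trichotomy (D.len (e t' : T)) (D.len t) with h | h | h
    · exfalso
      have h0 : D.len (x : T) ≤ D.len (e t' : T) := by
        rw [← hx]; exact hl.mono hext
      have h1 : D.len (D.res t (D.len (e t' : T))) = D.len (e t' : T) := D.len_res h.le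
      have h2 : D.res t (D.len (e t' : T)) ≤ t := D.res_le h.le
      have h3 : (x : T) ≤ D.res t (D.len (e t' : T)) := hl.le_of ht h2 (by rw [h1]; exact h0)
      have h4 : D.res t (D.len (e t' : T)) < t := by
        refine lt_of_le_of_ne h2 fun h5 => ?_
        rw [h5] at h1
        exact absurd h (by rw [← h1]; exact lt_irrefl _)
      have h5 := ih _ h4 h3
      let s : Ici u := ⟨D.res t (D.len (e t' : T)), (show u ≤ (x : T) from x.2).trans h3⟩
      have h6 : e s < e t' := e.strictMono (show s < t' from h4)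
      have h7 : D.len (e s : T) < D.len (e t' : T) := hl.lt _ _ h6
      have h8 : D.len (e s : T) = D.len (D.res t (D.len (e t' : T))) := h5
      rw [h8, h1] at h7
      exact lt_irrefl _ h7
    · exact h
    · exfalso
      have h1 : D.len (D.res (e t' : T) (D.len t)) = D.len t := D.len_res h.le
      have h2 : D.res (e t' : T) (D.len t) ≤ (e t' : T) := D.res_le h.le
      have h3 : (e x : T) ≤ D.res (e t' : T) (D.len t) :=
        hl.le_of hext h2 (by rw [h1, hx]; exact hl.mono ht)
      let r : Ici v := ⟨D.res (e t' : T) (D.len t), (show v ≤ (e x : T) from (e x).2).trans h3⟩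
      have h4 : r < e t' := by
        refine lt_of_le_of_ne (show r ≤ e t' from h2) fun h5 => ?_
        have h6 : D.len (r : T) = D.len (e t' : T) := by rw [h5]
        have h7 : D.len (r : T) = D.len t := h1
        rw [h7] at h6
        exact absurd h (by rw [← h6]; exact lt_irrefl _)
      have h5 : e.symm r < t' := by
        rw [← e.symm_apply_apply t']
        exact e.symm.strictMono h4
      have h6 : x ≤ e.symm r := by
        rw [← e.symm_apply_apply x]
        exact e.symm.monotone (show e x ≤ r from h3)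
      have h7 := ih (e.symm r : T) h5 h6
      have h8 : (⟨(e.symm r : T), (show u ≤ (x : T) from x.2).trans h6⟩ : Ici u) = e.symm r := rfl
      rw [h8, e.apply_symm_apply] at h7
      have h9 : D.len (r : T) = D.len t := h1
      rw [h9] at h7
      have h10 : D.len (e.symm r : T) < D.len t := hl.lt _ _ h5
      exact absurd h10 (by rw [← h7]; exact lt_irrefl _)

open Classical in
theorem exists_coneIso (hT : IsSuslinTree T) (D : Lev K1 T)
    (hunc : ∀ s : T, ¬ (Ici s).Countable) {u v : T} (huv : ¬ u ≤ v) (hvu : ¬ v ≤ u)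
    (e : Ici u ≃o Ici v) : ∃ c : ConeIso D.len, u ≤ c.a ∧ v ≤ c.b ∧ c.a ≠ c.b := by
  have hl := isLvl_len D
  obtain ⟨δ, huδ, hvδ, hδ⟩ := exists_fix hT D e
  obtain ⟨t, ht, hδt⟩ := exists_high hT D hunc u δ
  have h1 : D.len (D.res t δ) = δ := D.len_res hδt
  have h2 : D.res t δ ≤ t := D.res_le hδt
  have h3 : u ≤ D.res t δ := hl.le_of ht h2 (by rw [h1]; exact huδ.le)
  let x : Ici u := ⟨D.res t δ, h3⟩
  have hx : D.len (e x : T) = D.len (x : T) := (hδ x h1).trans h1.symm
  have hfix := fix_above hT D e x hx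
  have hux : u ≤ (x : T) := x.2
  have hvx : v ≤ (e x : T) := (e x).2
  refine ⟨{ a := x, b := e x
            f := fun w => if h : u ≤ w then e ⟨w, h⟩ else w
            g := fun w => if h : v ≤ w then e.symm ⟨w, h⟩ else w
            f_ge := ?_, g_ge := ?_, gf := ?_, fg := ?_, f_lvl := ?_, f_mono := ?_, g_mono := ?_ },
    hux, hvx, ?_⟩
  · intro w hw
    rw [dif_pos (hux.trans hw)]
    exact e.monotone (show x ≤ ⟨w, hux.trans hw⟩ from hw)
  · intro w hw
    rw [dif_pos (hvx.trans hw)]
    have h4 : e.symm (e x) ≤ e.symm ⟨w, hvx.trans hw⟩ :=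
      e.symm.monotone (show e x ≤ ⟨w, hvx.trans hw⟩ from hw)
    rw [e.symm_apply_apply x] at h4
    exact h4
  · intro w hw
    rw [dif_pos (hux.trans hw)]
    have h4 : v ≤ (e ⟨w, hux.trans hw⟩ : T) := (e ⟨w, hux.trans hw⟩).2
    rw [dif_pos h4]
    have h5 : (⟨(e ⟨w, hux.trans hw⟩ : T), h4⟩ : Ici v) = e ⟨w, hux.trans hw⟩ := rfl
    rw [h5, e.symm_apply_apply]
  · intro w hw
    rw [dif_pos (hvx.trans hw)]
    have h4 : u ≤ (e.symm ⟨w, hvx.trans hw⟩ : T) := (e.symm ⟨w, hvx.trans hw⟩).2
    rw [dif_pos h4]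
    have h5 : (⟨(e.symm ⟨w, hvx.trans hw⟩ : T), h4⟩ : Ici u) = e.symm ⟨w, hvx.trans hw⟩ := rfl
    rw [h5, e.apply_symm_apply]
  · intro w hw
    rw [dif_pos (hux.trans hw)]
    exact hfix w hw
  · intro w w' hw hww
    rw [dif_pos (hux.trans hw), dif_pos ((hux.trans hw).trans hww)]
    exact e.monotone (show (⟨w, hux.trans hw⟩ : Ici u) ≤ ⟨w', _⟩ from hww)
  · intro w w' hw hww
    rw [dif_pos (hvx.trans hw), dif_pos ((hvx.trans hw).trans hww)]
    exact e.symm.monotone (show (⟨w, hvx.trans hw⟩ : Ici v) ≤ ⟨w', _⟩ from hww)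
  · intro h4
    change (x : T) = (e x : T) at h4
    rw [← h4] at hvx
    rcases hl.tot _ _ _ hux hvx with h5 | h5
    · exact huv h5
    · exact hvu h5

/-- **Flips** for Suslin trees with isomorphic incomparable cones above every node. -/
theorem exists_hasFlips (hT : IsSuslinTree T) (D : Lev K1 T)
    (hunc : ∀ s : T, ¬ (Ici s).Countable)
    (hiso : ∀ s : T, ∃ u v, s ≤ u ∧ s ≤ v ∧ ¬ u ≤ v ∧ ¬ v ≤ u ∧ Nonempty (Ici u ≃o Ici v)) :
    ∃ sgn : T → Bool, HasFlips D sgn := by
  obtain ⟨sgn, hsgn⟩ := exists_flips (isLvl_len D)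
    (fun C hC => by
      obtain ⟨b, hb⟩ := K1.bdd C hC
      exact ⟨b, fun γ hγ => (hb γ hγ).le⟩)
    (card_tree hT D) (exists_high hT D hunc)
    (fun s => by
      obtain ⟨u, v, hu, hv, huv, hvu, ⟨e⟩⟩ := hiso s
      obtain ⟨c, hca, hcb, hab⟩ := exists_coneIso hT D hunc huv hvu e
      exact ⟨c, hu.trans hca, hv.trans hcb, hab⟩)
  refine ⟨sgn, fun s => ?_⟩
  obtain ⟨c, hca, hcb, hab, hs⟩ := hsgn s
  exact ⟨c.a, hca, c.f, fun t ht => ⟨hcb.trans (c.f_ge _ ht), c.f_lvl _ ht, hs t ht⟩,
    fun t u ht htu => c.f_mono _ _ ht htu⟩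

end Helper85.FL
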