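import Pool.Agent.Helper45.FL.Triv

/-!
FL-3: weak homotopy equivalences of simplicial sets.
-/

open CategoryTheory MonoidalCategory MonoidalClosed Simplicial Opposite HomotopicalAlgebra Limits
open CartesianMonoidalCategory

set_option autoImplicit false

namespace Helper85FL

open FL

universe u

open Pool.Agent.Helper45.FL2 (htpy_mk htpy_elim htpy_refl horn_edge TrivFib.lift TrivFib.hoEq
  trivFib_of_hoEq)

open SSet.modelCategoryQuillen in
/-- Two homotopies with the same source. -/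
theorem htpy_of_span {X Y : SSet.{u}} (hY : SSet.KanComplex Y) {f g h : X ⟶ Y} (h₁ : Htpy f g)
    (h₂ : Htpy f h) : Htpy g h := by
  obtain ⟨e₁, h10, h11⟩ := htpy_elim h₁
  obtain ⟨e₂, h20, h21⟩ := htpy_elim h₂
  have hfib : Fibration (terminal.from Y) := hY
  obtain ⟨H, hH0, hH1, -⟩ := horn_edge (terminal.from Y) e₁ e₂ (terminal.from _)
    (h10.trans h20.symm) (terminal.hom_ext _ _) (terminal.hom_ext _ _)
  exact htpy_mk H (hH0.trans h11) (hH1.trans h21)

theorem htpy_symm {X Y : SSet.{u}} (hY : SSet.KanComplex Y) {f g : X ⟶ Y} (h : Htpy f g) :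
    Htpy g f :=
  htpy_of_span hY h (htpy_refl f)

theorem htpy_trans {X Y : SSet.{u}} (hY : SSet.KanComplex Y) {f g h : X ⟶ Y} (h₁ : Htpy f g)
    (h₂ : Htpy g h) : Htpy f h :=
  htpy_of_span hY (htpy_symm hY h₁) h₂

theorem htpy_whiskerRight {X Y : SSet.{u}} {a b : X ⟶ Y} (h : Htpy a b) (Z : SSet.{u}) :
    Htpy (a ▷ Z) (b ▷ Z) := by
  obtain ⟨H, rfl, rfl⟩ := htpy_elim h
  refine htpy_mk (lift (lift (fst _ _ ≫ fst _ _) (snd _ _) ≫ H) (fst _ _ ≫ snd _ _)) ?_ ?_
  · rfl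
  · rfl

theorem htpy_precomp {X Y Z : SSet.{u}} {f g : Y ⟶ Z} (a : X ⟶ Y) (h : Htpy f g) :
    Htpy (a ≫ f) (a ≫ g) := by
  obtain ⟨H, rfl, rfl⟩ := htpy_elim h
  exact htpy_mk (a ▷ Δ[1] ≫ H) rfl rfl

theorem htpy_postcomp {X Y Z : SSet.{u}} {f g : X ⟶ Y} (h : Htpy f g) (b : Y ⟶ Z) :
    Htpy (f ≫ b) (g ≫ b) := by
  obtain ⟨H, rfl, rfl⟩ := htpy_elim h
  exact htpy_mk (H ≫ b) rfl rfl

theorem hoEq_comp {X Y Z : SSet.{u}} (hX : SSet.KanComplex X) (hZ : SSet.KanComplex Z)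
    {f : X ⟶ Y} {g : Y ⟶ Z} (hf : HoEq f) (hg : HoEq g) : HoEq (f ≫ g) := by
  obtain ⟨f', hf1, hf2⟩ := hf
  obtain ⟨g', hg1, hg2⟩ := hg
  have hf1' : Htpy (f ≫ f') (𝟙 X) := hf1
  have hf2' : Htpy (f' ≫ f) (𝟙 Y) := hf2
  have hg1' : Htpy (g ≫ g') (𝟙 Y) := hg1
  have hg2' : Htpy (g' ≫ g) (𝟙 Z) := hg2
  refine ⟨g' ≫ f', ?_, ?_⟩
  · have h := htpy_precomp f (htpy_postcomp hg1' f')
    rw [Category.id_comp, Category.assoc] at h
    rw [Category.assoc]
    exact htpy_trans hX h hf1'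
  · have h := htpy_precomp g' (htpy_postcomp hf2' g)
    rw [Category.id_comp, Category.assoc] at h
    rw [Category.assoc]
    exact htpy_trans hZ h hg2'

theorem hoEq_of_comp_left {X Y Z : SSet.{u}} (hY : SSet.KanComplex Y)
    {f : X ⟶ Y} {g : Y ⟶ Z} (hf : HoEq f) (hfg : HoEq (f ≫ g)) : HoEq g := by
  obtain ⟨f', hf1, hf2⟩ := hf
  obtain ⟨k, hk1, hk2⟩ := hfg
  have hf2' : Htpy (f' ≫ f) (𝟙 Y) := hf2
  have hk1' : Htpy ((f ≫ g) ≫ k) (𝟙 X) := hk1
  have hk2' : Htpy (k ≫ f ≫ g) (𝟙 Z) := hk2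
  refine ⟨k ≫ f, ?_, ?_⟩
  · have h1 := htpy_postcomp hf2' (g ≫ k ≫ f)
    have h2 := htpy_precomp f' (htpy_postcomp hk1' f)
    rw [Category.id_comp] at h1 h2
    simp only [Category.assoc] at h1 h2
    exact htpy_trans hY (htpy_trans hY (htpy_symm hY h1) h2) hf2'
  · rw [Category.assoc]
    exact hk2'

theorem hoEq_of_comp_right {X Y Z : SSet.{u}} (hY : SSet.KanComplex Y)
    {f : X ⟶ Y} {g : Y ⟶ Z} (hg : HoEq g) (hfg : HoEq (f ≫ g)) : HoEq f := by
  obtain ⟨g', hg1, hg2⟩ := hg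
  obtain ⟨k, hk1, hk2⟩ := hfg
  have hg1' : Htpy (g ≫ g') (𝟙 Y) := hg1
  have hk1' : Htpy ((f ≫ g) ≫ k) (𝟙 X) := hk1
  have hk2' : Htpy (k ≫ f ≫ g) (𝟙 Z) := hk2
  refine ⟨g ≫ k, ?_, ?_⟩
  · rw [← Category.assoc]
    exact hk1'
  · have h1 := htpy_precomp (g ≫ k ≫ f) hg1'
    have h2 := htpy_precomp g (htpy_postcomp hk2' g')
    rw [Category.comp_id] at h1
    rw [Category.id_comp] at h2
    simp only [Category.assoc] at h1 h2
    rw [Category.assoc]
    exact htpy_trans hY (htpy_trans hY (htpy_symm hY h1) h2) hg1'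

theorem htpy_uncurry {X A K : SSet.{u}} {φ ψ : A ⟶ (ihom X).obj K} (h : Htpy φ ψ) :
    Htpy (MonoidalClosed.uncurry φ) (MonoidalClosed.uncurry ψ) := by
  obtain ⟨H, rfl, rfl⟩ := htpy_elim h
  refine htpy_mk ((α_ X A Δ[1]).hom ≫ MonoidalClosed.uncurry H) ?_ ?_
  · refine Eq.trans ?_ (MonoidalClosed.uncurry_natural_left _ _).symm
    rfl
  · refine Eq.trans ?_ (MonoidalClosed.uncurry_natural_left _ _).symm
    rfl

theorem htpy_curry {X A K : SSet.{u}} {φ ψ : X ⊗ A ⟶ K} (h : Htpy φ ψ) :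
    Htpy (MonoidalClosed.curry φ) (MonoidalClosed.curry ψ) := by
  obtain ⟨H, rfl, rfl⟩ := htpy_elim h
  refine htpy_mk (MonoidalClosed.curry ((α_ X A Δ[1]).inv ≫ H)) ?_ ?_
  · refine (MonoidalClosed.curry_natural_left _ _).symm.trans ?_
    rfl
  · refine (MonoidalClosed.curry_natural_left _ _).symm.trans ?_
    rfl

theorem htpy_of_uncurry {X A K : SSet.{u}} {φ ψ : A ⟶ (ihom X).obj K}
    (h : Htpy (MonoidalClosed.uncurry φ) (MonoidalClosed.uncurry ψ)) : Htpy φ ψ := by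
  have := htpy_curry h
  rwa [MonoidalClosed.curry_uncurry, MonoidalClosed.curry_uncurry] at this

theorem htpy_pre {X Y : SSet.{u}} {a b : X ⟶ Y} (h : Htpy a b) (K : SSet.{u}) :
    Htpy ((MonoidalClosed.pre a).app K) ((MonoidalClosed.pre b).app K) := by
  apply htpy_of_uncurry
  rw [MonoidalClosed.uncurry_pre, MonoidalClosed.uncurry_pre]
  exact htpy_postcomp (htpy_whiskerRight h _) _

theorem we_of_hoEq {X Y : SSet.{0}} {f : X ⟶ Y} (h : HoEq f) : WE f := by
  obtain ⟨g, h1, h2⟩ := h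
  intro K _
  refine ⟨(MonoidalClosed.pre g).app K, ?_, ?_⟩
  · have := htpy_pre (a := g ≫ f) (b := 𝟙 Y) h2 K
    rw [MonoidalClosed.pre_map, MonoidalClosed.pre_id] at this
    exact this
  · have := htpy_pre (a := f ≫ g) (b := 𝟙 X) h1 K
    rw [MonoidalClosed.pre_map, MonoidalClosed.pre_id] at this
    exact this

theorem kan_ihom (X : SSet.{0}) {K : SSet.{0}} (hK : SSet.KanComplex K) :
    SSet.KanComplex ((ihom X).obj K) := by
  infer_instance

theorem we_comp {X Y Z : SSet.{0}} {f : X ⟶ Y} {g : Y ⟶ Z} (hf : WE f) (hg : WE g) :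
    WE (f ≫ g) := by
  intro K hK
  rw [MonoidalClosed.pre_map]
  exact hoEq_comp (kan_ihom _ hK) (kan_ihom _ hK) (hg K hK) (hf K hK)

theorem we_of_comp_left {X Y Z : SSet.{0}} {f : X ⟶ Y} {g : Y ⟶ Z} (hf : WE f)
    (hfg : WE (f ≫ g)) : WE g := by
  intro K hK
  have h := hfg K hK
  rw [MonoidalClosed.pre_map] at h
  exact hoEq_of_comp_right (kan_ihom _ hK) (hf K hK) h

theorem we_of_comp_right {X Y Z : SSet.{0}} {f : X ⟶ Y} {g : Y ⟶ Z} (hg : WE g)
    (hfg : WE (f ≫ g)) : WE f := by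
  intro K hK
  have h := hfg K hK
  rw [MonoidalClosed.pre_map] at h
  exact hoEq_of_comp_left (kan_ihom _ hK) (hg K hK) h


theorem kanFib_iff {E B : SSet.{0}} (p : E ⟶ B) :
    KanFib p ↔ SSet.modelCategoryQuillen.J.{0}.rlp p := by
  constructor
  · intro h A B i hi
    simp only [SSet.modelCategoryQuillen.J, MorphismProperty.iSup_iff] at hi
    obtain ⟨n, ⟨k⟩⟩ := hi
    exact h n k
  · intro h n i
    apply h
    simp only [SSet.modelCategoryQuillen.J, MorphismProperty.iSup_iff]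
    exact ⟨n, ⟨i⟩⟩

open SSet.modelCategoryQuillen in
theorem kanFib_iff_fibration {E B : SSet.{0}} (p : E ⟶ B) : KanFib p ↔ Fibration p := by
  rw [kanFib_iff, SSet.modelCategoryQuillen.fibration_iff]

theorem lift_pre_symm {A B C D : SSet.{0}} (i : A ⟶ B) (j : C ⟶ D) (K : SSet.{0}) :
    HasLiftingProperty j ((MonoidalClosed.pre i).app K) ↔
      HasLiftingProperty i ((MonoidalClosed.pre j).app K) := by
  let sq₁₃ := Functor.PullbackObjObj.ofIsTerminal MonoidalClosed.internalHom i (terminal.from K)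
    terminalIsTerminal
  let sq₁₃' := Functor.PullbackObjObj.ofIsTerminal MonoidalClosed.internalHom j (terminal.from K)
    terminalIsTerminal
  let sq₁₂ := Functor.PushoutObjObj.ofHasPushout (curriedTensor SSet.{0}) i j
  have h1 := MonoidalClosed.internalHomAdjunction₂.hasLiftingProperty_iff sq₁₂ sq₁₃
  have h2 := MonoidalClosed.internalHomAdjunction₂.hasLiftingProperty_iff sq₁₂.flipTensor sq₁₃'
  have h3 := HasLiftingProperty.iff_of_arrow_iso_left
    (show Arrow.mk sq₁₂.ι ≅ Arrow.mk sq₁₂.flipTensor.ι from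
      Arrow.isoMk (Iso.refl _) (β_ _ _)) (terminal.from K)
  exact h1.symm.trans (h3.trans h2)

theorem we_of_lift_kan {X Y : SSet.{0}} (i : X ⟶ Y) [Mono i]
    (h : ∀ {E B : SSet.{0}} (p : E ⟶ B), SSet.KanComplex E → SSet.KanComplex B → KanFib p →
      HasLiftingProperty i p) : WE i := by
  intro K hK
  have h1 : TrivFib ((MonoidalClosed.pre i).app K) := by
    intro n
    rw [lift_pre_symm]
    apply h
    · infer_instance
    · infer_instance
    · rw [kanFib_iff_fibration]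
      infer_instance
  exact TrivFib.hoEq h1

open SSet.modelCategoryQuillen in
theorem lift_of_we {X Y : SSet.{0}} (i : X ⟶ Y) [Mono i] (h : WE i) {E B : SSet.{0}}
    (p : E ⟶ B) (hE : SSet.KanComplex E) (hB : SSet.KanComplex B) (hp : KanFib p) :
    HasLiftingProperty i p := by
  have hpf : Fibration p := (kanFib_iff_fibration p).mp hp
  let sq := Functor.PullbackObjObj.ofHasPullback MonoidalClosed.internalHom i p
  have hB' : TrivFib ((MonoidalClosed.pre i).app B) := by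
    apply trivFib_of_hoEq (kan_ihom Y hB) (kan_ihom X hB)
    · rw [kanFib_iff_fibration]
      infer_instance
    · exact h B hB
  have hfst : TrivFib sq.fst := by
    intro n
    have : HasLiftingProperty ∂Δ[n].ι ((MonoidalClosed.internalHom.map i.op).app B) := hB' n
    exact sq.isPullback.flip.hasLiftingProperty ∂Δ[n].ι
  have hfstfib : Fibration sq.fst := by
    rw [← kanFib_iff_fibration]
    intro n k
    exact TrivFib.lift hfst _
  have hEX : SSet.KanComplex ((MonoidalClosed.internalHom.obj (op X)).obj E) := kan_ihom X hE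
  have hpt : SSet.KanComplex sq.pt := isFibrant_of_fibration sq.fst
  have hπ : HoEq sq.π := by
    refine hoEq_of_comp_right hpt (TrivFib.hoEq hfst) ?_
    have e : sq.π ≫ sq.fst = (MonoidalClosed.pre i).app E := sq.π_fst
    exact Eq.mpr (congrArg HoEq e) (h E hE)
  have hπt : TrivFib sq.π := by
    apply trivFib_of_hoEq (kan_ihom Y hE) hpt
    · rw [kanFib_iff_fibration]
      exact SSet.fibration_pullbackObjObjπ sq
    · exact hπ
  have h1 : HasLiftingProperty (initial.to (𝟙_ SSet.{0})) sq.π := TrivFib.lift hπt _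
  let sq₁₂ := Functor.PushoutObjObj.ofIsInitialRight (curriedTensor SSet.{0}) i
    (initial.to (𝟙_ SSet.{0})) initialIsInitial
  have h2 := (MonoidalClosed.internalHomAdjunction₂.hasLiftingProperty_iff sq₁₂ sq).mpr h1
  have h3 := HasLiftingProperty.iff_of_arrow_iso_left
    (show Arrow.mk sq₁₂.ι ≅ Arrow.mk i from
      Arrow.isoMk (ρ_ X) (ρ_ Y) (by rfl)) p
  exact h3.mp h2

theorem we_iff_lift {X Y : SSet.{0}} (i : X ⟶ Y) [Mono i] :
    WE i ↔ ∀ {E B : SSet.{0}} (p : E ⟶ B), SSet.KanComplex E → SSet.KanComplex B → KanFib p →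
      HasLiftingProperty i p :=
  ⟨fun h _ _ p hE hB hp => lift_of_we i h p hE hB hp, fun h => we_of_lift_kan i h⟩

/-- Maps with the left lifting property with respect to all Kan fibrations (e.g. anodyne
extensions). -/
theorem we_of_lift {X Y : SSet.{0}} (i : X ⟶ Y) [Mono i]
    (h : ∀ {E B : SSet.{0}} (p : E ⟶ B), KanFib p → HasLiftingProperty i p) : WE i :=
  we_of_lift_kan i fun p _ _ hp => h p hp

theorem htpy_curry' {X K : SSet.{0}} {φ ψ : X ⟶ K} (h : Htpy φ ψ) :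
    Htpy (MonoidalClosed.curry' φ) (MonoidalClosed.curry' ψ) :=
  htpy_curry (htpy_precomp (ρ_ X).hom h)

theorem htpy_uncurry' {X K : SSet.{0}} {φ ψ : 𝟙_ SSet.{0} ⟶ (ihom X).obj K} (h : Htpy φ ψ) :
    Htpy (MonoidalClosed.uncurry' φ) (MonoidalClosed.uncurry' ψ) :=
  htpy_precomp (ρ_ X).inv (htpy_uncurry h)

theorem curry'_pre {X Y K : SSet.{0}} (f : X ⟶ Y) (u : Y ⟶ K) :
    MonoidalClosed.curry' u ≫ (MonoidalClosed.pre f).app K = MonoidalClosed.curry' (f ≫ u) := by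
  unfold MonoidalClosed.curry'
  rw [MonoidalClosed.curry_pre_app]
  rfl

theorem uncurry'_pre {X Y K : SSet.{0}} (f : X ⟶ Y) (u : 𝟙_ SSet.{0} ⟶ (ihom Y).obj K) :
    MonoidalClosed.uncurry' (u ≫ (MonoidalClosed.pre f).app K) =
      f ≫ MonoidalClosed.uncurry' u := by
  obtain ⟨v, rfl⟩ : ∃ v, MonoidalClosed.curry' v = u :=
    ⟨MonoidalClosed.uncurry' u, MonoidalClosed.curry'_uncurry' u⟩
  rw [curry'_pre, MonoidalClosed.uncurry'_curry', MonoidalClosed.uncurry'_curry']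

/-- Between Kan complexes weak equivalences are homotopy equivalences. -/
theorem hoEq_of_we {X Y : SSet.{0}} {f : X ⟶ Y} (hX : SSet.KanComplex X)
    (hY : SSet.KanComplex Y) (h : WE f) : HoEq f := by
  obtain ⟨s, _, hs⟩ := h X hX
  obtain ⟨t, ht, _⟩ := h Y hY
  have hYY := kan_ihom Y hY
  have hs' : Htpy (s ≫ (MonoidalClosed.pre f).app X) (𝟙 _) := hs
  have ht' : Htpy ((MonoidalClosed.pre f).app Y ≫ t) (𝟙 _) := ht
  -- the homotopy inverse
  set γ := MonoidalClosed.curry' (𝟙 X) ≫ s with hγ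
  set g := MonoidalClosed.uncurry' γ with hg
  have h1 : Htpy (f ≫ g) (𝟙 X) := by
    have h2 := htpy_uncurry' (htpy_precomp (MonoidalClosed.curry' (𝟙 X)) hs')
    rw [Category.comp_id, MonoidalClosed.uncurry'_curry', ← Category.assoc, uncurry'_pre] at h2
    exact h2
  refine ⟨g, h1, ?_⟩
  have h3 : Htpy (f ≫ g ≫ f) (f ≫ 𝟙 Y) := by
    have := htpy_postcomp h1 f
    rw [Category.id_comp, Category.assoc] at this
    rw [Category.comp_id]
    exact this
  have h4 := htpy_postcomp (htpy_curry' h3) t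
  rw [← curry'_pre, ← curry'_pre, Category.assoc, Category.assoc] at h4
  have h5 := htpy_precomp (MonoidalClosed.curry' (g ≫ f)) ht'
  have h6 := htpy_precomp (MonoidalClosed.curry' (𝟙 Y)) ht'
  rw [Category.comp_id] at h5 h6
  have h7 := htpy_trans hYY (htpy_trans hYY (htpy_symm hYY h5) h4) h6
  have h8 := htpy_uncurry' h7
  rw [MonoidalClosed.uncurry'_curry', MonoidalClosed.uncurry'_curry'] at h8
  exact h8

end Helper85FL
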