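import Mathlib

/-!
# Two colorings of a tree that are reversed by many isomorphisms of cones
-/

open Set Filter

namespace Helper85.FL

variable {S Λ ι : Type} [PartialOrder S] [LinearOrder Λ]

/-- `lvl` is the level function of the tree `S`. -/
structure IsLvl (lvl : S → Λ) : Prop where
  lt : ∀ x y : S, x < y → lvl x < lvl y
  proj : ∀ (u : S) (β : Λ), β ≤ lvl u → ∃ x, x ≤ u ∧ lvl x = β
  tot : ∀ u x y : S, x ≤ u → y ≤ u → x ≤ y ∨ y ≤ x

/-- `f` is an isomorphism of the cone above `a` onto the cone above `b`, with inverse `g`. -/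
structure ConeIso (lvl : S → Λ) where
  a : S
  b : S
  f : S → S
  g : S → S
  f_ge : ∀ u, a ≤ u → b ≤ f u
  g_ge : ∀ u, b ≤ u → a ≤ g u
  gf : ∀ u, a ≤ u → g (f u) = u
  fg : ∀ u, b ≤ u → f (g u) = u
  f_lvl : ∀ u, a ≤ u → lvl (f u) = lvl u
  f_mono : ∀ u v, a ≤ u → u ≤ v → f u ≤ f v
  g_mono : ∀ u v, b ≤ u → u ≤ v → g u ≤ g v

variable {lvl : S → Λ}

theorem IsLvl.mono (h : IsLvl lvl) {x y : S} (hxy : x ≤ y) : lvl x ≤ lvl y := by
  rcases eq_or_lt_of_le hxy with rfl | h'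
  · exact le_rfl
  · exact (h.lt _ _ h').le

theorem IsLvl.le_of (h : IsLvl lvl) {u x y : S} (hx : x ≤ u) (hy : y ≤ u)
    (hl : lvl x ≤ lvl y) : x ≤ y := by
  rcases h.tot u x y hx hy with h1 | h1
  · exact h1
  · rcases eq_or_lt_of_le h1 with rfl | h2
    · exact le_rfl
    · exact absurd (h.lt _ _ h2) (not_lt.2 hl)

theorem IsLvl.eq_of (h : IsLvl lvl) {u x y : S} (hx : x ≤ u) (hy : y ≤ u)
    (hl : lvl x = lvl y) : x = y :=
  le_antisymm (h.le_of hx hy hl.le) (h.le_of hy hx hl.ge)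

theorem ConeIso.g_lvl (c : ConeIso lvl) {u : S} (hu : c.b ≤ u) : lvl (c.g u) = lvl u := by
  rw [← c.f_lvl _ (c.g_ge _ hu), c.fg _ hu]

theorem ConeIso.f_a (c : ConeIso lvl) : c.f c.a = c.b := by
  refine le_antisymm ?_ (c.f_ge _ le_rfl)
  have h1 := c.f_mono _ _ le_rfl (c.g_ge _ le_rfl)
  rwa [c.fg _ le_rfl] at h1

theorem ConeIso.lvl_b (c : ConeIso lvl) : lvl c.b = lvl c.a := by
  rw [← c.f_a, c.f_lvl _ le_rfl]

/-- one step along one of the isomorphisms of `F` or their inverses -/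
def SStep (P : ι → ConeIso lvl) (F : Set ι) (u v : S) : Prop :=
  ∃ i ∈ F, ((P i).a ≤ u ∧ v = (P i).f u) ∨ ((P i).b ≤ u ∧ v = (P i).g u)

def Rel (P : ι → ConeIso lvl) (F : Set ι) : S → S → Prop := Relation.ReflTransGen (SStep P F)

variable {P : ι → ConeIso lvl} {F : Set ι}

theorem SStep.symm {u v : S} (h : SStep P F u v) : SStep P F v u := by
  obtain ⟨i, hi, ⟨h1, rfl⟩ | ⟨h1, rfl⟩⟩ := h
  · exact ⟨i, hi, Or.inr ⟨(P i).f_ge _ h1, ((P i).gf _ h1).symm⟩⟩
  · exact ⟨i, hi, Or.inl ⟨(P i).g_ge _ h1, ((P i).fg _ h1).symm⟩⟩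

theorem Rel.symm {u v : S} (h : Rel P F u v) : Rel P F v u := by
  induction h with
  | refl => exact Relation.ReflTransGen.refl
  | tail _ h2 ih => exact Relation.ReflTransGen.head h2.symm ih

theorem SStep.lvl_eq {u v : S} (h : SStep P F u v) : lvl v = lvl u := by
  obtain ⟨i, hi, ⟨h1, rfl⟩ | ⟨h1, rfl⟩⟩ := h
  · exact (P i).f_lvl _ h1
  · exact (P i).g_lvl h1

theorem SStep.proj (hl : IsLvl lvl) {u v x : S} (h : SStep P F u v) (hx : x ≤ u)
    (hF : ∀ i ∈ F, lvl (P i).a ≤ lvl x) : ∃ y ≤ v, lvl y = lvl x ∧ SStep P F x y := by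
  obtain ⟨i, hi, ⟨h1, rfl⟩ | ⟨h1, rfl⟩⟩ := h
  · have h2 : (P i).a ≤ x := hl.le_of h1 hx (hF i hi)
    exact ⟨(P i).f x, (P i).f_mono _ _ h2 hx, (P i).f_lvl _ h2, i, hi, Or.inl ⟨h2, rfl⟩⟩
  · have h2 : (P i).b ≤ x := hl.le_of h1 hx ((P i).lvl_b.le.trans (hF i hi))
    exact ⟨(P i).g x, (P i).g_mono _ _ h2 hx, (P i).g_lvl h2, i, hi, Or.inr ⟨h2, rfl⟩⟩

theorem Rel.proj (hl : IsLvl lvl) {u v x : S} (h : Rel P F u v) (hx : x ≤ u)
    (hF : ∀ i ∈ F, lvl (P i).a ≤ lvl x) : ∃ y ≤ v, lvl y = lvl x ∧ Rel P F x y := by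
  induction h with
  | refl => exact ⟨x, hx, rfl, Relation.ReflTransGen.refl⟩
  | tail _ h2 ih =>
    obtain ⟨y, hy, hyl, hxy⟩ := ih
    obtain ⟨z, hz, hzl, hyz⟩ := h2.proj hl hy (fun i hi => hyl ▸ hF i hi)
    exact ⟨z, hz, hzl.trans hyl, hxy.tail hyz⟩

theorem SStep.lift {x y u : S} (h : SStep P F x y) (hx : x ≤ u) :
    ∃ v, y ≤ v ∧ SStep P F u v := by
  obtain ⟨i, hi, ⟨h1, rfl⟩ | ⟨h1, rfl⟩⟩ := h
  · exact ⟨(P i).f u, (P i).f_mono _ _ h1 hx, i, hi, Or.inl ⟨h1.trans hx, rfl⟩⟩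
  · exact ⟨(P i).g u, (P i).g_mono _ _ h1 hx, i, hi, Or.inr ⟨h1.trans hx, rfl⟩⟩

theorem Rel.lift {x y u : S} (h : Rel P F x y) (hx : x ≤ u) :
    ∃ v, y ≤ v ∧ Rel P F u v := by
  induction h with
  | refl => exact ⟨u, hx, Relation.ReflTransGen.refl⟩
  | tail _ h2 ih =>
    obtain ⟨v, hv, huv⟩ := ih
    obtain ⟨w, hw, hvw⟩ := h2.lift hv
    exact ⟨w, hw, huv.tail hvw⟩

/-- above a node of a level not below the levels of `F`, different nodes are not connected -/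
def Uq (P : ι → ConeIso lvl) (F : Set ι) : Prop :=
  ∀ x v v', (∀ i ∈ F, lvl (P i).a ≤ lvl x) → x ≤ v → x ≤ v' → Rel P F v v' → v = v'

theorem uq_empty : Uq P (∅ : Set ι) := by
  intro x v v' _ _ _ h
  induction h with
  | refl => rfl
  | tail _ h2 _ => obtain ⟨i, hi, _⟩ := h2; exact absurd hi (Set.notMem_empty i)

/-- the situation of one step of the induction -/
structure Sit (P : ι → ConeIso lvl) (F : Set ι) (r : ι) : Prop where
  hl : IsLvl lvl
  hlow : ∀ i ∈ F, lvl (P i).a ≤ lvl (P r).a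
  uq : Uq P F
  nr : ¬ Rel P F (P r).a (P r).b

namespace Sit

variable {r : ι}

def Hit (P : ι → ConeIso lvl) (F : Set ι) (r : ι) (u : S) : Prop :=
  ∃ w, (P r).b ≤ w ∧ Rel P F u w

theorem uniq (h : Sit P F r) {u w w' : S} (h1 : (P r).b ≤ w) (h2 : Rel P F u w)
    (h1' : (P r).b ≤ w') (h2' : Rel P F u w') : w = w' :=
  h.uq (P r).b w w' (fun i hi => (P r).lvl_b ▸ h.hlow i hi) h1 h1' (h2.symm.trans h2')

open Classical in
noncomputable def nf (P : ι → ConeIso lvl) (F : Set ι) (r : ι) (u : S) : S :=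
  if h : Hit P F r u then (P r).g h.choose else u

theorem nf_hit (h : Sit P F r) {u w : S} (h1 : (P r).b ≤ w) (h2 : Rel P F u w) :
    nf P F r u = (P r).g w := by
  have hh : Hit P F r u := ⟨w, h1, h2⟩
  unfold nf
  rw [dif_pos hh, h.uniq hh.choose_spec.1 hh.choose_spec.2 h1 h2]

theorem nf_not {u : S} (h1 : ¬ Hit P F r u) : nf P F r u = u := by
  unfold nf
  rw [dif_neg h1]

theorem not_hit (h : Sit P F r) {u : S} (hu : (P r).a ≤ u) : ¬ Hit P F r u := by
  rintro ⟨w, hw, huw⟩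
  obtain ⟨y, hy, hyl, hay⟩ := huw.proj h.hl hu h.hlow
  have : y = (P r).b := h.hl.eq_of hy hw (hyl.trans (P r).lvl_b.symm)
  exact h.nr (this ▸ hay)

theorem step (h : Sit P F r) {u v : S} (huv : SStep P (insert r F) u v) :
    Rel P F (nf P F r u) (nf P F r v) := by
  obtain ⟨i, hi, hst⟩ := huv
  rcases Set.mem_insert_iff.1 hi with rfl | hiF
  · rcases hst with ⟨h1, rfl⟩ | ⟨h1, rfl⟩
    · rw [nf_not (h.not_hit h1), h.nf_hit ((P i).f_ge _ h1) Relation.ReflTransGen.refl,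
        (P i).gf _ h1]
      exact Relation.ReflTransGen.refl
    · rw [h.nf_hit h1 Relation.ReflTransGen.refl, nf_not (h.not_hit ((P i).g_ge _ h1))]
      exact Relation.ReflTransGen.refl
  · have hs : SStep P F u v := ⟨i, hiF, hst⟩
    by_cases hu : Hit P F r u
    · obtain ⟨w, hw, huw⟩ := hu
      have hvw : Rel P F v w := Relation.ReflTransGen.head hs.symm huw
      rw [h.nf_hit hw huw, h.nf_hit hw hvw]
      exact Relation.ReflTransGen.refl
    · have hv : ¬ Hit P F r v := by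
        rintro ⟨w, hw, hvw⟩
        exact hu ⟨w, hw, Relation.ReflTransGen.head hs hvw⟩
      rw [nf_not hu, nf_not hv]
      exact Relation.ReflTransGen.single hs

theorem rel (h : Sit P F r) {u v : S} (huv : Rel P (insert r F) u v) :
    Rel P F (nf P F r u) (nf P F r v) := by
  induction huv with
  | refl => exact Relation.ReflTransGen.refl
  | tail _ h2 ih => exact ih.trans (h.step h2)

theorem hit_of (h : Sit P F r) {x v v' : S} (hx : lvl (P r).a ≤ lvl x) (hv : x ≤ v)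
    (hv' : x ≤ v') (hh : Hit P F r v) : ∃ w w' y, (P r).b ≤ y ∧ lvl y = lvl x ∧ y ≤ w ∧ y ≤ w' ∧
      Rel P F v w ∧ Rel P F v' w' := by
  obtain ⟨w, hw, hvw⟩ := hh
  obtain ⟨y, hy, hyl, hxy⟩ := hvw.proj h.hl hv (fun i hi => (h.hlow i hi).trans hx)
  have hby : (P r).b ≤ y := h.hl.le_of hw hy (by rw [hyl, (P r).lvl_b]; exact hx)
  obtain ⟨w', hw', hvw'⟩ := hxy.lift hv'
  exact ⟨w, w', y, hby, hyl, hy, hw', hvw, hvw'⟩

theorem uq_insert (h : Sit P F r) : Uq P (insert r F) := by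
  intro x v v' hx hv hv' hvv
  have hxr : lvl (P r).a ≤ lvl x := hx r (Set.mem_insert _ _)
  have hxF : ∀ i ∈ F, lvl (P i).a ≤ lvl x := fun i hi => hx i (Set.mem_insert_of_mem _ hi)
  have h1 := h.rel hvv
  by_cases hh : Hit P F r v
  · obtain ⟨w, w', y, hby, hyl, hyw, hyw', hvw, hvw'⟩ := h.hit_of hxr hv hv' hh
    rw [h.nf_hit (hby.trans hyw) hvw, h.nf_hit (hby.trans hyw') hvw'] at h1
    have h2 := h.uq ((P r).g y) _ _ (fun i hi => by rw [(P r).g_lvl hby, hyl]; exact hxF i hi)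
      ((P r).g_mono _ _ hby hyw) ((P r).g_mono _ _ hby hyw') h1
    have h3 : w = w' := by
      rw [← (P r).fg _ (hby.trans hyw), h2, (P r).fg _ (hby.trans hyw')]
    subst h3
    exact h.uq x v v' hxF hv hv' (hvw.trans hvw'.symm)
  · have hh' : ¬ Hit P F r v' := by
      intro hh'
      obtain ⟨w, w', y, hby, hyl, hyw, hyw', hvw, hvw'⟩ := h.hit_of hxr hv' hv hh'
      exact hh ⟨w', hby.trans hyw', hvw'⟩
    rw [nf_not hh, nf_not hh'] at h1
    exact h.uq x v v' hxF hv hv' h1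

open Classical in
theorem color_insert (h : Sit P F r) {χ : S → Bool}
    (hχ : ∀ i ∈ F, ∀ u, (P i).a ≤ u → χ ((P i).f u) = !χ u) :
    ∃ χ' : S → Bool, ∀ i ∈ insert r F, ∀ u, (P i).a ≤ u → χ' ((P i).f u) = !χ' u := by
  have hev : ∀ u w, (P r).b ≤ w → Rel P F u w → ∀ hh : Hit P F r u, hh.choose = w :=
    fun u w h1 h2 hh => h.uniq hh.choose_spec.1 hh.choose_spec.2 h1 h2
  refine ⟨fun u => if hh : Hit P F r u then
    (χ u ^^ (χ hh.choose ^^ (χ ((P r).g hh.choose) ^^ true))) else χ u, ?_⟩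
  intro i hi u hu
  rcases Set.mem_insert_iff.1 hi with rfl | hiF
  · have h1 : ¬ Hit P F i u := h.not_hit hu
    have h2 : Hit P F i ((P i).f u) := ⟨_, (P i).f_ge _ hu, Relation.ReflTransGen.refl⟩
    have h3 := hev _ _ ((P i).f_ge _ hu) Relation.ReflTransGen.refl h2
    simp only [dif_neg h1, dif_pos h2, h3, (P i).gf _ hu]
    cases χ ((P i).f u) <;> cases χ u <;> rfl
  · have hs : SStep P F u ((P i).f u) := ⟨i, hiF, Or.inl ⟨hu, rfl⟩⟩
    have h4 := hχ i hiF u hu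
    by_cases hh : Hit P F r u
    · obtain ⟨w, hw, huw⟩ := id hh
      have hvw : Rel P F ((P i).f u) w := Relation.ReflTransGen.head hs.symm huw
      have hh' : Hit P F r ((P i).f u) := ⟨w, hw, hvw⟩
      simp only [dif_pos hh, dif_pos hh', hev _ _ hw huw hh, hev _ _ hw hvw hh', h4]
      cases χ u <;> cases χ w <;> cases χ ((P r).g w) <;> rfl
    · have hh' : ¬ Hit P F r ((P i).f u) := by
        rintro ⟨w, hw, hvw⟩
        exact hh ⟨w, hw, Relation.ReflTransGen.head hs hvw⟩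
      simp only [dif_neg hh, dif_neg hh', h4]

end Sit

/-- every isomorphism of the family is chosen above a node of a level not below the levels of the
previous ones -/
def Good (P : ι → ConeIso lvl) : Prop :=
  ∀ i, ∃ x, x ≤ (P i).a ∧ x ≤ (P i).b ∧ (P i).a ≠ (P i).b ∧
    ∀ j, j ≠ i → lvl (P j).a ≤ lvl (P i).a → lvl (P j).a ≤ lvl x

theorem fin_color (hl : IsLvl lvl) (hP : Good P) (F : Finset ι) :
    Uq P (F : Set ι) ∧ ∃ χ : S → Bool, ∀ i ∈ F, ∀ u, (P i).a ≤ u → χ ((P i).f u) = !χ u := by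
  classical
  induction F using Finset.induction_on_max_value (fun i => lvl (P i).a) with
  | empty => exact ⟨by simpa using uq_empty, fun _ => true, fun i hi => by simp at hi⟩
  | insert r F hr hmax ih =>
    obtain ⟨huq, χ, hχ⟩ := ih
    obtain ⟨x, hxa, hxb, hab, hx⟩ := hP r
    have hlow : ∀ i ∈ (F : Set ι), lvl (P i).a ≤ lvl x := by
      intro i hi
      exact hx i (fun h => hr (h ▸ hi)) (hmax i hi)
    have hs : Sit P (F : Set ι) r :=
      ⟨hl, fun i hi => hmax i hi, huq, fun hrel => hab (huq x _ _ hlow hxa hxb hrel)⟩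
    obtain ⟨χ', hχ'⟩ := hs.color_insert hχ
    refine ⟨by simpa using hs.uq_insert, χ', fun i hi => hχ' i ?_⟩
    simpa using hi

/-- the compactness argument -/
theorem exists_color (hl : IsLvl lvl) (hP : Good P) :
    ∃ χ : S → Bool, ∀ i, ∀ u, (P i).a ≤ u → χ ((P i).f u) = !χ u := by
  classical
  choose huq χ hχ using fun F : Finset ι => fin_color hl hP F
  let U : Ultrafilter (Finset ι) := Ultrafilter.of atTop
  have hU : (U : Filter (Finset ι)) ≤ atTop := Ultrafilter.of_le atTop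
  refine ⟨fun u => decide (∀ᶠ F in (U : Filter (Finset ι)), χ F u = true), fun i u hu => ?_⟩
  have h1 : ∀ᶠ F in (U : Filter (Finset ι)), χ F ((P i).f u) = !χ F u := by
    have h2 : ∀ᶠ F in (atTop : Filter (Finset ι)), ({i} : Finset ι) ≤ F := eventually_ge_atTop _
    filter_upwards [hU h2] with F hF
    exact hχ F i (hF (Finset.mem_singleton_self i)) u hu
  by_cases h3 : ∀ᶠ F in (U : Filter (Finset ι)), χ F u = true
  · have h4 : ¬ ∀ᶠ F in (U : Filter (Finset ι)), χ F ((P i).f u) = true := by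
      intro h4
      obtain ⟨F, h5, h6, h7⟩ := ((h1.and (h3.and h4)).exists)
      rw [h6, h7] at h5
      simp at h5
    simp [h3, h4]
  · have h4 : ∀ᶠ F in (U : Filter (Finset ι)), ¬ χ F u = true :=
      Ultrafilter.eventually_not.2 h3
    have h5 : ∀ᶠ F in (U : Filter (Finset ι)), χ F ((P i).f u) = true := by
      filter_upwards [h1, h4] with F h6 h7
      rw [h6]
      simpa using h7
    simp [h3, h5]

end Helper85.FL
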