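import Pool.Agent.Helper85.FL.Color

/-!
# Flips of trees with many isomorphic cones
-/

open Set Filter Cardinal

namespace Helper85.FL

variable {S Λ : Type} [PartialOrder S] [LinearOrder Λ] {lvl : S → Λ}

theorem lvl_lt (hl : IsLvl lvl) (c : ConeIso lvl) {x : S} (hxa : x ≤ c.a) (hxb : x ≤ c.b)
    (hab : c.a ≠ c.b) : lvl x < lvl c.a := by
  rcases eq_or_lt_of_le hxa with h | h
  · exfalso
    apply hab
    rcases eq_or_lt_of_le hxb with h' | h'
    · exact h.symm.trans h'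
    · have h1 := hl.lt _ _ h'
      rw [c.lvl_b, h] at h1
      exact absurd h1 (lt_irrefl _)
  · exact hl.lt _ _ h

/-- **Flips.** If every node of the tree has above it two different nodes with isomorphic cones,
there is a two coloring of the nodes such that every node has above it two different nodes with
cones isomorphic by a color reversing isomorphism. -/
theorem exists_flips (hl : IsLvl lvl) (hΛ : ∀ C : Set Λ, C.Countable → ∃ β, ∀ γ ∈ C, γ ≤ β)
    (hS : #S ≤ ℵ₁) (hext : ∀ (s : S) (β : Λ), ∃ t, s ≤ t ∧ β ≤ lvl t)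
    (hiso : ∀ s : S, ∃ c : ConeIso lvl, s ≤ c.a ∧ s ≤ c.b ∧ c.a ≠ c.b) :
    ∃ sgn : S → Bool, ∀ s : S, ∃ c : ConeIso lvl, s ≤ c.a ∧ s ≤ c.b ∧ c.a ≠ c.b ∧
      ∀ u, c.a ≤ u → sgn (c.f u) = !sgn u := by
  classical
  rcases isEmpty_or_nonempty S with hemp | hne
  · exact ⟨fun _ => true, fun s => (hemp.false s).elim⟩
  have h1 : #S ≤ #((ℵ₁ : Cardinal.{0}).ord.ToType) := by rwa [Cardinal.mk_ord_toType]
  obtain ⟨φ⟩ := h1
  set W := (ℵ₁ : Cardinal.{0}).ord.ToType with hW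
  obtain ⟨ρ, hρ⟩ : ∃ ρ : W → S, Function.Surjective ρ :=
    ⟨Function.invFun φ, Function.invFun_surjective φ.injective⟩
  have hcount : ∀ w : W, (Iio w).Countable := by
    intro w
    have h2 : #(Iio w) < ℵ₁ := Cardinal.mk_Iio_toType_ord_lt w
    have h3 : #(Iio w) ≤ ℵ₀ := Order.lt_succ_iff.1 (h2.trans_eq Cardinal.succ_aleph0.symm)
    exact Cardinal.le_aleph0_iff_set_countable.1 h3
  have hstep : ∀ (w : W) (ih : ∀ w' : W, w' < w → ConeIso lvl), ∃ c : ConeIso lvl, ∃ x,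
      ρ w ≤ x ∧ x ≤ c.a ∧ x ≤ c.b ∧ c.a ≠ c.b ∧ ∀ w' (h : w' < w), lvl (ih w' h).a ≤ lvl x := by
    intro w ih
    have h2 : (range fun w' : Iio w => lvl (ih w'.1 w'.2).a).Countable := by
      have := (hcount w).to_subtype
      exact Set.countable_range _
    obtain ⟨β, hβ⟩ := hΛ _ h2
    obtain ⟨x, hx, hxβ⟩ := hext (ρ w) β
    obtain ⟨c, hca, hcb, hab⟩ := hiso x
    exact ⟨c, x, hx, hca, hcb, hab, fun w' h => (hβ _ ⟨⟨w', h⟩, rfl⟩).trans hxβ⟩
  choose F x hF1 hF2 hF3 hF4 hF5 using hstep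
  let P : W → ConeIso lvl := (wellFounded_lt (α := W)).fix F
  have hP : ∀ w, P w = F w (fun w' _ => P w') := fun w => WellFounded.fix_eq _ _ _
  let y : W → S := fun w => x w (fun w' _ => P w')
  have hy1 : ∀ w, ρ w ≤ y w := fun w => hF1 w _
  have hy2 : ∀ w, y w ≤ (P w).a := fun w => by rw [hP w]; exact hF2 w _
  have hy3 : ∀ w, y w ≤ (P w).b := fun w => by rw [hP w]; exact hF3 w _
  have hy4 : ∀ w, (P w).a ≠ (P w).b := fun w => by rw [hP w]; exact hF4 w _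
  have hy5 : ∀ w, ∀ w' < w, lvl (P w').a ≤ lvl (y w) := fun w w' h =>
    hF5 w (fun w' _ => P w') w' h
  have hgood : Good P := by
    intro w
    refine ⟨y w, hy2 w, hy3 w, hy4 w, fun j hj hlj => ?_⟩
    rcases lt_or_gt_of_ne hj with h | h
    · exact hy5 w j h
    · have h2 := lvl_lt hl (P j) (hy2 j) (hy3 j) (hy4 j)
      exact absurd (h2.trans_le hlj) (not_lt.2 (hy5 j w h))
  obtain ⟨χ, hχ⟩ := exists_color hl hgood
  refine ⟨χ, fun s => ?_⟩
  obtain ⟨w, rfl⟩ := hρ s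
  exact ⟨P w, (hy1 w).trans (hy2 w), (hy1 w).trans (hy3 w), hy4 w, fun u hu => hχ w u hu⟩

end Helper85.FL
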